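import Mathlib

/-!
MP_58257a_co (half-size hitting sets for 1000-rich rectangles): definitions.

The points of a finite plane set in general position are the elements `i` of a finite type `ι`,
the point `i` lies at `(x i, y i)` with `x`, `y` injective.
-/

set_option autoImplicit false

namespace Pool.Agent.helper23.HH

open Finset

/-- A closed integer box `[l, r] × [b, t]`. -/
@[ext] structure Bx where
  /-- left -/
  l : ℤ
  /-- right -/
  r : ℤ
  /-- bottom -/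
  b : ℤ
  /-- top -/
  t : ℤ
  deriving DecidableEq

/-- The plane point `z` lies in the box `R`. -/
def In (z : ℤ × ℤ) (R : Bx) : Prop := R.l ≤ z.1 ∧ z.1 ≤ R.r ∧ R.b ≤ z.2 ∧ z.2 ≤ R.t

instance (z : ℤ × ℤ) (R : Bx) : Decidable (In z R) := by unfold In; infer_instance

variable {ι : Type} [Fintype ι]

/-- The points of the set in the box. -/
def Co (x y : ι → ℤ) (R : Bx) : Finset ι := univ.filter (fun i => In (x i, y i) R)

/-- Every side of the box carries a point of the box. -/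
def Tight (x y : ι → ℤ) (R : Bx) : Prop :=
  (∃ i ∈ Co x y R, x i = R.l) ∧ (∃ i ∈ Co x y R, x i = R.r) ∧
    (∃ i ∈ Co x y R, y i = R.b) ∧ (∃ i ∈ Co x y R, y i = R.t)

/-- `R` is the bounding box of exactly `K` points and contains no point of `H`. -/
structure Ex (x y : ι → ℤ) (K : ℕ) (H : Finset (ℤ × ℤ)) (R : Bx) : Prop where
  tight : Tight x y R
  card : (Co x y R).card = K
  free : ∀ z ∈ H, ¬ In z R

/-- The quadrants of `R` at the plane point `z`: `LB`, `LT`, `RB`, `RT`. -/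
def LB (x y : ι → ℤ) (R : Bx) (z : ℤ × ℤ) : Finset ι :=
  (Co x y R).filter (fun i => x i ≤ z.1 ∧ y i ≤ z.2)
/-- left top -/
def LT (x y : ι → ℤ) (R : Bx) (z : ℤ × ℤ) : Finset ι :=
  (Co x y R).filter (fun i => x i ≤ z.1 ∧ z.2 < y i)
/-- right bottom -/
def RB (x y : ι → ℤ) (R : Bx) (z : ℤ × ℤ) : Finset ι :=
  (Co x y R).filter (fun i => z.1 < x i ∧ y i ≤ z.2)
/-- right top -/
def RT (x y : ι → ℤ) (R : Bx) (z : ℤ × ℤ) : Finset ι :=
  (Co x y R).filter (fun i => z.1 < x i ∧ z.2 < y i)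

/-- The two boxes have the same four quadrant counts at `z`. -/
def Same (x y : ι → ℤ) (R R' : Bx) (z : ℤ × ℤ) : Prop :=
  (LB x y R z).card = (LB x y R' z).card ∧ (LT x y R z).card = (LT x y R' z).card ∧
    (RB x y R z).card = (RB x y R' z).card ∧ (RT x y R z).card = (RT x y R' z).card

/-- `R` is narrower and taller than `R'` (weakly). -/
def Cr (R R' : Bx) : Prop := R'.l ≤ R.l ∧ R.r ≤ R'.r ∧ R.b ≤ R'.b ∧ R'.t ≤ R.t

/-- `R'` is a south east shift of `R`. -/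
def SE (R R' : Bx) : Prop := R.l < R'.l ∧ R.r < R'.r ∧ R'.b < R.b ∧ R'.t < R.t

/-- `R'` is a north east shift of `R`. -/
def NE (R R' : Bx) : Prop := R.l < R'.l ∧ R.r < R'.r ∧ R.b < R'.b ∧ R.t < R'.t

/-- The area of a box. -/
def ar (R : Bx) : ℤ := (R.r - R.l) * (R.t - R.b)

/-- The load of a family of boxes at `z`. -/
def load {κ : Type} [Fintype κ] (g : κ → Bx) (z : ℤ × ℤ) : ℕ :=
  (univ.filter (fun k => In z (g k))).card

/-! ## Statements of the modules -/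

/-- U: two boxes of the class in shift position with a common point and the same label at this point can be
uncrossed inside the class. -/
def U_stmt : Prop :=
  ∀ (ι : Type) [Fintype ι] (x y : ι → ℤ) (K : ℕ) (H : Finset (ℤ × ℤ)) (R R' : Bx) (z : ℤ × ℤ),
    Ex x y K H R → Ex x y K H R' → In z R → In z R' → Same x y R R' z → (SE R R' ∨ NE R R') →
    ∃ T T' : Bx, Ex x y K H T ∧ Ex x y K H T' ∧ ar T + ar T' < ar R + ar R' ∧
      ∀ w : ℤ × ℤ, (if In w T then 1 else 0) + (if In w T' then 1 else 0) ≤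
        (if In w R then 1 else 0) + (if In w R' then (1 : ℕ) else 0)

/-- T: two different boxes of the class with a common point and the same label at this point are crossing or in shift
position. -/
def T_stmt : Prop :=
  ∀ (ι : Type) [Fintype ι] (x y : ι → ℤ) (K : ℕ) (H : Finset (ℤ × ℤ)) (R R' : Bx) (z : ℤ × ℤ),
    Ex x y K H R → Ex x y K H R' → In z R → In z R' → Same x y R R' z →
    Cr R R' ∨ Cr R' R ∨ SE R R' ∨ SE R' R ∨ NE R R' ∨ NE R' R

/-- NF: every family can be brought to normal form: no two members in shift position with the same label at a common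
point. -/
def NF_stmt : Prop :=
  ∀ (ι : Type) [Fintype ι] (x y : ι → ℤ) (K : ℕ) (H : Finset (ℤ × ℤ)) (κ : Type) [Fintype κ]
    (f : κ → Bx) (L : ℕ), (∀ k, Ex x y K H (f k)) → (∀ z, load f z ≤ L) →
    ∃ g : κ → Bx, (∀ k, Ex x y K H (g k)) ∧ (∀ z, load g z ≤ L) ∧
      ∀ (k k' : κ) (z : ℤ × ℤ), In z (g k) → In z (g k') → Same x y (g k) (g k') z →
        ¬ SE (g k) (g k') ∧ ¬ NE (g k) (g k')

/-- MI (Mirsky): a family of nonempty boxes with load at most `L` has a subfamily of at least the `L`-th part in which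
no two (different indices) are crossing or equal. -/
def MI_stmt : Prop :=
  ∀ (κ : Type) [Fintype κ] (g : κ → Bx) (L : ℕ), (∀ k, (g k).l ≤ (g k).r ∧ (g k).b ≤ (g k).t) →
    (∀ z, load g z ≤ L) →
    ∃ S : Finset κ, Fintype.card κ ≤ L * S.card ∧ ∀ k ∈ S, ∀ k' ∈ S, k ≠ k' → ¬ Cr (g k) (g k')

/-- IN: a finite set of boxes, no two crossing, no two nested, with depth at most `D` at every point, has
a pairwise disjoint subset of at least the `(8 D + 1)`-th part. -/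
def IN_stmt : Prop :=
  ∀ (S : Finset Bx) (D : ℕ), (∀ R ∈ S, R.l ≤ R.r ∧ R.b ≤ R.t) →
    (∀ R ∈ S, ∀ R' ∈ S, R ≠ R' → ¬ Cr R R' ∧ ¬ (R.l ≤ R'.l ∧ R'.r ≤ R.r ∧ R.b ≤ R'.b ∧ R'.t ≤ R.t)) →
    (∀ z, (S.filter (fun R => In z R)).card ≤ D) →
    ∃ S' ⊆ S, S.card ≤ (8 * D + 1) * S'.card ∧
      ∀ R ∈ S', ∀ R' ∈ S', R ≠ R' → ∀ z, ¬ (In z R ∧ In z R')

/-- A (main proposition): a family of `K`-boxes with load at most `L` gives many pairwise disjoint `K`-boxes. -/
def A_stmt : Prop :=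
  ∀ (ι : Type) [Fintype ι] (x y : ι → ℤ), Function.Injective x → Function.Injective y →
    ∀ (K : ℕ) (H : Finset (ℤ × ℤ)) (κ : Type) [Fintype κ]
    (f : κ → Bx) (L : ℕ), (∀ k, Ex x y K H (f k)) → (∀ z, load f z ≤ L) →
    ∃ S : Finset Bx, (∀ R ∈ S, Ex x y K H R) ∧
      (∀ R ∈ S, ∀ R' ∈ S, R ≠ R' → ∀ z, ¬ (In z R ∧ In z R')) ∧
      Fintype.card κ ≤ L * ((8 * (K + 1) ^ 3 + 1) * S.card)

/-- CO (count): a finite set of families of `N` pairwise disjoint tight boxes has at most `C(n,N)^4` members. -/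
def CO_stmt : Prop :=
  ∀ (ι : Type) [Fintype ι] (x y : ι → ℤ), Function.Injective x → Function.Injective y →
    ∀ (N : ℕ) (G : Finset (Finset Bx)),
    (∀ F ∈ G, F.card = N ∧ (∀ R ∈ F, Tight x y R) ∧
      ∀ R ∈ F, ∀ R' ∈ F, R ≠ R' → ∀ z, ¬ (In z R ∧ In z R')) →
    G.card ≤ ((Fintype.card ι).choose N) ^ 4

/-- GR (greedy): if every nonempty subfamily of `G` has a point hitting at least the fraction `δ` of it, then `m` points
leave at most `(1 - δ)^m` of `G`. -/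
def GR_stmt : Prop :=
  ∀ (α : Type) [DecidableEq α] (hit : ℤ × ℤ → α → Prop) [∀ z F, Decidable (hit z F)] (G : Finset α) (δ : ℝ),
    0 ≤ δ → δ ≤ 1 →
    (∀ G' ⊆ G, G'.Nonempty → ∃ z, δ * G'.card ≤ ((G'.filter (fun F => hit z F)).card : ℝ)) →
    ∀ m : ℕ, ∃ Z : Finset (ℤ × ℤ), Z.card ≤ m ∧
      ((G.filter (fun F => ∀ z ∈ Z, ¬ hit z F)).card : ℝ) ≤ (1 - δ) ^ m * G.card

/-- RK (rank space version of the result). -/
def RK_stmt : Prop :=
  ∀ (ι : Type) [Fintype ι] (x y : ι → ℤ), Function.Injective x → Function.Injective y →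
    ∃ H : Finset (ℤ × ℤ), H.card ≤ Fintype.card ι / 2 ∧ ∀ R : Bx, ¬ Ex x y 1000 H R

/-- FI (final reduction). -/
def FI_stmt : Prop :=
  ∀ A : Finset (ℝ × ℝ), ∃ A' : Finset (ℝ × ℝ),
    A'.card ≤ A.card / 2 ∧
    ∀ x₁ x₂ y₁ y₂ : ℝ,
      1000 ≤ (A.filter (fun p => x₁ ≤ p.1 ∧ p.1 ≤ x₂ ∧ y₁ ≤ p.2 ∧ p.2 ≤ y₂)).card →
      ∃ q ∈ A', x₁ ≤ q.1 ∧ q.1 ≤ x₂ ∧ y₁ ≤ q.2 ∧ q.2 ≤ y₂

end Pool.Agent.helper23.HH
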